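import Pool.Agent.TH471.M5.Chart2

/-!
The dimension of the rings of jets of a surface at the points of a non-empty open set.
-/

namespace Pool.Agent.TH471.M5

open MvPolynomial Pool.Agent.W607 Module

variable {σ FF : Type*} [Field FF] [Algebra ℂ FF] {π : MvPolynomial σ ℂ →ₐ[ℂ] FF}
  {h : MvPolynomial σ ℂ}

theorem exists_chart_core [Finite σ]
    (hfrac : ∀ z : FF, ∃ f g, π g ≠ 0 ∧ z * π g = π f)
    (x y : FF) (D1 D2 : Derivation ℂ FF FF)
    (halg : ∀ z : FF, ∃ Q : BB ℂ, Q ≠ 0 ∧ ev (K := ℂ) x y z Q = 0)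
    (hxy : ∀ Q : AA ℂ, aeval ![x, y] Q = 0 → Q = 0) :
    ∃ h : MvPolynomial σ ℂ, π h ≠ 0 ∧ ∃ (hx : x ∈ Bh π h) (hy : y ∈ Bh π h),
      (∀ b ∈ Bh π h, D1 b ∈ Bh π h) ∧ (∀ b ∈ Bh π h, D2 b ∈ Bh π h) ∧
      ∀ w : σ → ℂ, (∀ f, π f = 0 → eval w f = 0) → eval w h ≠ 0 →
        ∃ φ : Bh π h →ₐ[ℂ] ℂ, (∀ (b : Bh π h) (k : ℕ) (a : MvPolynomial σ ℂ),
          (b : FF) * π h ^ k = π a → φ b * (eval w h) ^ k = eval w a) ∧
          RingHom.ker φ ≤ Ideal.span {(⟨x, hx⟩ : Bh π h) - algebraMap ℂ (Bh π h) (φ ⟨x, hx⟩),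
            (⟨y, hy⟩ : Bh π h) - algebraMap ℂ (Bh π h) (φ ⟨y, hy⟩)} ⊔ (RingHom.ker φ) ^ 2 := by
  classical
  have hQ : ∀ i : σ, ∃ Q : BB ℂ, ev (K := ℂ) x y (π (X i)) Q = 0 ∧
      ev (K := ℂ) x y (π (X i)) Q.derivative ≠ 0 := fun i => exists_sep hxy _ (halg _)
  choose Q hQ0 hQ1 using hQ
  let S : Set FF := {x, y} ∪ ((Set.range fun i => D1 (π (X i))) ∪
    ((Set.range fun i => D2 (π (X i))) ∪
      Set.range fun i => (ev (K := ℂ) x y (π (X i)) (Q i).derivative)⁻¹))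
  have hS : S.Finite := (Set.toFinite _).union ((Set.finite_range _).union
    ((Set.finite_range _).union (Set.finite_range _)))
  obtain ⟨h, hh, hSh⟩ := exists_h (π := π) hfrac S hS
  have hx : x ∈ Bh π h := hSh (Or.inl (by simp))
  have hy : y ∈ Bh π h := hSh (Or.inl (by simp))
  have hD1 : ∀ b ∈ Bh π h, D1 b ∈ Bh π h :=
    der_mem_Bh hh D1 fun i => hSh (Or.inr (Or.inl ⟨i, rfl⟩))
  have hD2 : ∀ b ∈ Bh π h, D2 b ∈ Bh π h :=
    der_mem_Bh hh D2 fun i => hSh (Or.inr (Or.inr (Or.inl ⟨i, rfl⟩)))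
  have hQi : ∀ i, (ev (K := ℂ) x y (π (X i)) (Q i).derivative)⁻¹ ∈ Bh π h :=
    fun i => hSh (Or.inr (Or.inr (Or.inr ⟨i, rfl⟩)))
  refine ⟨h, hh, hx, hy, hD1, hD2, fun w hw hhw => ?_⟩
  obtain ⟨φ, hφ⟩ := exists_hom (h := h) w hw hhw
  refine ⟨φ, hφ, ?_⟩
  let zz : σ → Bh π h := fun i => ⟨π (X i), pi_mem_Bh _⟩
  let xx : Bh π h := ⟨x, hx⟩
  let yy : Bh π h := ⟨y, hy⟩
  have hφz : ∀ i, φ (zz i) = w i := by
    intro i
    have := hφ (zz i) 0 (X i) (by simp [zz])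
    simpa using this
  have hm1 : ∀ i, zz i - algebraMap ℂ _ (w i) ∈ Ideal.span
      {xx - algebraMap ℂ (Bh π h) (φ xx), yy - algebraMap ℂ (Bh π h) (φ yy)} ⊔
      (RingHom.ker φ) ^ 2 := by
    intro i
    rw [← hφz i]
    have hev : ∀ G : BB ℂ, ((ev (K := ℂ) xx yy (zz i) G : Bh π h) : FF) =
        ev (K := ℂ) x y (π (X i)) G := fun G => ev_hom (Bh π h).val xx yy (zz i) G
    refine tangent φ xx yy (zz i) (Q i) ?_ ?_
    · apply Subtype.ext
      rw [hev, hQ0]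
      rfl
    · intro h1
      have h2 : ev (K := ℂ) xx yy (zz i) (Q i).derivative * ⟨_, hQi i⟩ = (1 : Bh π h) := by
        apply Subtype.ext
        rw [coe_mul_Bh, hev]
        exact mul_inv_cancel₀ (hQ1 i)
      have h3 := congrArg φ h2
      rw [map_mul, h1, zero_mul, map_one] at h3
      exact zero_ne_one h3
  -- the kernel
  intro b hb
  obtain ⟨k, a, hk⟩ := b.2
  have ha : a ∈ mw w := by
    rw [mem_mw, ← hφ b k a hk]
    have hb' : φ b = 0 := hb
    rw [hb', zero_mul]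
  let ππ : MvPolynomial σ ℂ →ₐ[ℂ] Bh π h := π.codRestrict _ fun f => pi_mem_Bh f
  have h1 : ππ a ∈ Ideal.span
    {xx - algebraMap ℂ (Bh π h) (φ xx), yy - algebraMap ℂ (Bh π h) (φ yy)} ⊔
    (RingHom.ker φ) ^ 2 := by
    have h2 : mw w ≤ Ideal.comap ππ (Ideal.span
      {xx - algebraMap ℂ (Bh π h) (φ xx), yy - algebraMap ℂ (Bh π h) (φ yy)} ⊔
      (RingHom.ker φ) ^ 2) := by
      unfold mw
      rw [Ideal.span_le]
      rintro _ ⟨i, rfl⟩
      rw [SetLike.mem_coe, Ideal.mem_comap, map_sub, ← MvPolynomial.algebraMap_eq,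
        AlgHom.commutes]
      exact hm1 i
    exact h2 ha
  have h3 : b = ππ a * (⟨(π h)⁻¹, inv_mem_Bh hh⟩ : Bh π h) ^ k := by
    apply Subtype.ext
    rw [coe_mul_Bh]
    show (b : FF) = π a * ((π h)⁻¹) ^ k
    rw [← hk, inv_pow, mul_inv_cancel_right₀ (pow_ne_zero _ hh)]
  rw [h3]
  exact Ideal.mul_mem_right _ _ h1

/-- the orders of derivatives -/
def rw' (K : ℕ) : Finset (ℕ × ℕ) :=
  ((Finset.range K) ×ˢ (Finset.range K)).filter fun p => p.1 + p.2 < K

theorem mem_rw' {K : ℕ} {p : ℕ × ℕ} : p ∈ rw' K ↔ p.1 + p.2 < K := by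
  simp only [rw', Finset.mem_filter, Finset.mem_product, Finset.mem_range]
  omega

theorem card_rw' (K : ℕ) : (rw' K).card = K * (K + 1) / 2 := by
  have h0 : (rw' K).card = (K + 1).choose 2 := by
    induction K with
    | zero => rfl
    | succ s ih =>
      have h1 : rw' (s + 1) = rw' s ∪ Finset.HasAntidiagonal.antidiagonal s := by
        ext p
        rw [Finset.mem_union, mem_rw', mem_rw', Finset.HasAntidiagonal.mem_antidiagonal]
        omega
      have h2 : Disjoint (rw' s) (Finset.HasAntidiagonal.antidiagonal s) := by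
        rw [Finset.disjoint_left]
        intro p hp hq
        rw [mem_rw'] at hp
        rw [Finset.HasAntidiagonal.mem_antidiagonal] at hq
        omega
      rw [h1, Finset.card_union_of_disjoint h2, ih, Finset.Nat.card_antidiagonal,
        Nat.choose_succ_succ' (s + 1) 1, Nat.choose_one_right, add_comm]
  rw [h0, Nat.choose_two_right, Nat.add_sub_cancel, mul_comm]

/-- values of the derivatives of `u^i v^j` -/
theorem der_mono {B : Type*} [CommRing B] [Algebra ℂ B] (φ : B →ₐ[ℂ] ℂ) (D1 D2 : Derivation ℂ B B)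
    (u v : B) (h1u : D1 u = 1) (h1v : D1 v = 0) (h2u : D2 u = 0) (h2v : D2 v = 1)
    (hφu : φ u = 0) (hφv : φ v = 0) (α β i j : ℕ) :
    φ (D1^[α] (D2^[β] (u ^ i * v ^ j))) =
      if i = α ∧ j = β then (α.factorial : ℂ) * (β.factorial : ℂ) else 0 := by
  have e2 : D2 (u ^ i) = 0 := by
    rw [D2.leibniz_pow, h2u]
    simp
  rw [iter_mul_pow D2 _ v e2 h2v]
  have e3 : ((j.descFactorial β : ℕ) : B) * (u ^ i * v ^ (j - β)) =
      (((j.descFactorial β : ℕ) : B) * v ^ (j - β)) * u ^ i := by ring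
  have e4 : D1 (((j.descFactorial β : ℕ) : B) * v ^ (j - β)) = 0 := by
    rw [D1.leibniz, D1.leibniz_pow, h1v, Derivation.map_natCast]
    simp
  rw [e3, iter_mul_pow D1 _ u e4 h1u]
  simp only [map_mul, map_pow, map_natCast, hφu, hφv]
  by_cases hi : i = α
  · by_cases hj : j = β
    · subst hi hj
      simp [Nat.descFactorial_self]
    · rw [if_neg (fun h => hj h.2)]
      rcases lt_or_gt_of_ne hj with h | h
      · rw [Nat.descFactorial_of_lt h]
        simp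
      · rw [zero_pow (n := j - β) (by omega)]
        simp
  · rw [if_neg (fun h => hi h.1)]
    rcases lt_or_gt_of_ne hi with h | h
    · rw [Nat.descFactorial_of_lt h]
      simp
    · rw [zero_pow (n := i - α) (by omega)]
      simp

/-- **The rings of jets have the dimension `K (K + 1) / 2` on a non-empty open set.** -/
theorem exists_chart_dim [Finite σ]
    (hfrac : ∀ z : FF, ∃ f g, π g ≠ 0 ∧ z * π g = π f)
    (x y : FF) (D1 D2 : Derivation ℂ FF FF)
    (h11 : D1 x = 1) (h12 : D1 y = 0) (h21 : D2 x = 0) (h22 : D2 y = 1)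
    (halg : ∀ z : FF, ∃ Q : BB ℂ, Q ≠ 0 ∧ ev (K := ℂ) x y z Q = 0)
    (hxy : ∀ Q : AA ℂ, aeval ![x, y] Q = 0 → Q = 0) :
    ∃ h : MvPolynomial σ ℂ, π h ≠ 0 ∧
      ∀ w : σ → ℂ, (∀ f, π f = 0 → eval w f = 0) → eval w h ≠ 0 → ∀ K : ℕ,
        finrank ℂ (MvPolynomial σ ℂ ⧸ (RingHom.ker π ⊔ (mw w) ^ K)) = K * (K + 1) / 2 := by
  classical
  obtain ⟨h, hh, hx, hy, hD1, hD2, hcore⟩ :=
    exists_chart_core (π := π) hfrac x y D1 D2 halg hxy
  refine ⟨h, hh, fun w hw hhw K => ?_⟩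
  obtain ⟨φ, hφ, hm⟩ := hcore w hw hhw
  let xx : Bh π h := ⟨x, hx⟩
  let yy : Bh π h := ⟨y, hy⟩
  let ππ : MvPolynomial σ ℂ →ₐ[ℂ] Bh π h := π.codRestrict _ fun f => pi_mem_Bh f
  let E1 := resD D1 _ hD1
  let E2 := resD D2 _ hD2
  have g11 : E1 xx = 1 := Subtype.ext h11
  have g12 : E1 yy = 0 := Subtype.ext h12
  have g21 : E2 xx = 0 := Subtype.ext h21
  have g22 : E2 yy = 1 := Subtype.ext h22
  let u := xx - algebraMap ℂ (Bh π h) (φ xx)
  let v := yy - algebraMap ℂ (Bh π h) (φ yy)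
  have h1u : E1 u = 1 := by
    show E1 (xx - algebraMap ℂ (Bh π h) (φ xx)) = 1
    rw [map_sub, g11, Derivation.map_algebraMap, sub_zero]
  have h1v : E1 v = 0 := by
    show E1 (yy - algebraMap ℂ (Bh π h) (φ yy)) = 0
    rw [map_sub, g12, Derivation.map_algebraMap, sub_zero]
  have h2u : E2 u = 0 := by
    show E2 (xx - algebraMap ℂ (Bh π h) (φ xx)) = 0
    rw [map_sub, g21, Derivation.map_algebraMap, sub_zero]
  have h2v : E2 v = 1 := by
    show E2 (yy - algebraMap ℂ (Bh π h) (φ yy)) = 1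
    rw [map_sub, g22, Derivation.map_algebraMap, sub_zero]
  have hφu : φ u = 0 := by
    show φ (xx - algebraMap ℂ (Bh π h) (φ xx)) = 0
    rw [map_sub, AlgHom.commutes]
    exact sub_self _
  have hφv : φ v = 0 := by
    show φ (yy - algebraMap ℂ (Bh π h) (φ yy)) = 0
    rw [map_sub, AlgHom.commutes]
    exact sub_self _
  have hφπ : ∀ f, φ (ππ f) = eval w f := by
    intro f
    have := hφ (ππ f) 0 f (by rw [pow_zero, mul_one]; rfl)
    simpa using this
  let DL : ℕ × ℕ → Bh π h →ₗ[ℂ] Bh π h := fun p =>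
    ((E1 : Bh π h →ₗ[ℂ] Bh π h) ^ p.1) * ((E2 : Bh π h →ₗ[ℂ] Bh π h) ^ p.2)
  have hDL : ∀ p b, DL p b = E1^[p.1] (E2^[p.2] b) := by
    intro p b
    simp only [DL, Module.End.mul_apply, Module.End.pow_apply]
    rfl
  let Λ0 : Bh π h →ₗ[ℂ] (rw' K → ℂ) := LinearMap.pi fun p => φ.toLinearMap ∘ₗ DL p.1
  have hΛ0 : ∀ b p, Λ0 b p = φ (E1^[p.1.1] (E2^[p.1.2] b)) := by
    intro b p
    show φ (DL p.1 b) = _
    rw [hDL]
  let Λ : MvPolynomial σ ℂ →ₗ[ℂ] (rw' K → ℂ) := Λ0 ∘ₗ ππ.toLinearMap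
  have hΛ : ∀ f p, Λ f p = φ (E1^[p.1.1] (E2^[p.1.2] (ππ f))) := fun f p => hΛ0 _ _
  -- powers of the kernel
  have hpow : ∀ b ∈ (RingHom.ker φ) ^ K, Λ0 b = 0 := by
    intro b hb
    ext p
    rw [hΛ0]
    have hp := mem_rw'.1 p.2
    have h4 : E1^[p.1.1] (E2^[p.1.2] b) ∈ (RingHom.ker φ) ^ 1 := by
      refine iter_der_mem_pow E1 _ p.1.1 1 _ (iter_der_mem_pow E2 _ p.1.2 (1 + p.1.1) _ ?_)
      exact Ideal.pow_le_pow_right (by omega) hb
    rw [pow_one] at h4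
    exact h4
  have hππ : ∀ f ∈ (mw w) ^ K, ππ f ∈ (RingHom.ker φ) ^ K := by
    intro f hf
    have h1 : Ideal.map ππ (mw w) ≤ RingHom.ker φ := by
      rw [Ideal.map_le_iff_le_comap]
      intro g hg
      rw [Ideal.mem_comap, RingHom.mem_ker]
      rw [hφπ]
      exact (mem_mw w g).1 hg
    have h2 : Ideal.map ππ ((mw w) ^ K) ≤ (RingHom.ker φ) ^ K := by
      rw [Ideal.map_pow]
      exact Ideal.pow_right_mono h1 K
    exact h2 (Ideal.mem_map_of_mem _ hf)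
  -- approximation
  have happ : ∀ b : Bh π h, ∃ f, ππ f - b ∈ (RingHom.ker φ) ^ K := by
    intro b
    obtain ⟨k, a, hk⟩ := b.2
    have h3 : Ideal.span {h ^ k} ⊔ (mw w) ^ K = ⊤ := by
      rw [← Ideal.span_singleton_pow]
      apply Ideal.pow_sup_pow_eq_top
      rw [Ideal.eq_top_iff_one]
      have h4 : (1 : MvPolynomial σ ℂ) = C (eval w h)⁻¹ * h + (1 - C (eval w h)⁻¹ * h) := by ring
      rw [h4]
      refine Submodule.add_mem_sup (Ideal.mul_mem_left _ _ (Ideal.mem_span_singleton_self h)) ?_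
      rw [mem_mw]
      simp [hhw]
    obtain ⟨p, hp, r, hr, hpr⟩ := Submodule.mem_sup.1 ((Ideal.eq_top_iff_one _).1 h3)
    obtain ⟨c, rfl⟩ := Ideal.mem_span_singleton'.1 hp
    refine ⟨a * c, ?_⟩
    have h5 : ππ (a * c) - b = -(b * ππ r) := by
      apply Subtype.ext
      have h6 : π r = 1 - π c * π h ^ k := by
        rw [← map_pow, ← map_mul, ← map_one π, ← map_sub]
        congr 1
        rw [← hpr]
        ring
      show π (a * c) - (b : FF) = -((b : FF) * π r)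
      rw [map_mul, ← hk, h6]
      ring
    rw [h5]
    exact Ideal.neg_mem_iff _ |>.2 (Ideal.mul_mem_left _ _ (hππ r hr))
  -- surjectivity
  have hsurj0 : Function.Surjective Λ0 := by
    intro t
    refine ⟨∑ p : rw' K, (t p / ((p.1.1.factorial : ℂ) * (p.1.2.factorial : ℂ))) •
      (u ^ p.1.1 * v ^ p.1.2), ?_⟩
    rw [map_sum]
    ext p
    rw [Finset.sum_apply]
    have h1 : ∀ p' : rw' K, Λ0 ((t p' / ((p'.1.1.factorial : ℂ) * (p'.1.2.factorial : ℂ))) •
        (u ^ p'.1.1 * v ^ p'.1.2)) p = if p' = p then t p else 0 := by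
      intro p'
      rw [map_smul, Pi.smul_apply, hΛ0, der_mono φ E1 E2 u v h1u h1v h2u h2v hφu hφv]
      by_cases hpp : p' = p
      · subst hpp
        rw [if_pos ⟨rfl, rfl⟩, if_pos rfl, smul_eq_mul, div_mul_cancel₀]
        exact mul_ne_zero (Nat.cast_ne_zero.2 (Nat.factorial_ne_zero _))
          (Nat.cast_ne_zero.2 (Nat.factorial_ne_zero _))
      · rw [if_neg hpp, if_neg, smul_zero]
        rintro ⟨h1, h2⟩
        exact hpp (Subtype.ext (Prod.ext h1 h2))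
    rw [Finset.sum_congr rfl fun p' _ => h1 p', Finset.sum_ite_eq' Finset.univ p,
      if_pos (Finset.mem_univ _)]
  have hsurj : Function.Surjective Λ := by
    intro t
    obtain ⟨b, hb⟩ := hsurj0 t
    obtain ⟨f, hf⟩ := happ b
    refine ⟨f, ?_⟩
    have h1 := hpow _ hf
    rw [map_sub, hb, sub_eq_zero] at h1
    exact h1
  -- the kernel
  have hker : (RingHom.ker π ⊔ (mw w) ^ K).restrictScalars ℂ = LinearMap.ker Λ := by
    apply le_antisymm
    · intro f hf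
      obtain ⟨p, hp, r, hr, rfl⟩ := Submodule.mem_sup.1 ((Submodule.restrictScalars_mem _ _ _).1 hf)
      rw [LinearMap.mem_ker, map_add]
      have h1 : Λ p = 0 := by
        show Λ0 (ππ p) = 0
        have : ππ p = 0 := Subtype.ext hp
        rw [this, map_zero]
      have h2 : Λ r = 0 := hpow _ (hππ r hr)
      rw [h1, h2, add_zero]
    · intro f hf
      rw [LinearMap.mem_ker] at hf
      rw [Submodule.restrictScalars_mem]
      have hf' : ππ f ∈ (RingHom.ker φ) ^ K := by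
        refine mem_pow_of_derivatives φ E1 E2 xx yy g11 g12 g21 g22 hm K _ ?_
        intro α β hαβ
        have h1 := congrFun hf ⟨(α, β), mem_rw'.2 hαβ⟩
        rw [hΛ] at h1
        exact h1
      obtain ⟨k, a, h1, h2⟩ := ker_pow_lift w φ hφ K _ hf'
      exact cancel_h w hhw K k f a h2 h1
  have hfr : finrank ℂ (MvPolynomial σ ℂ ⧸ (RingHom.ker π ⊔ (mw w) ^ K).restrictScalars ℂ) =
      K * (K + 1) / 2 := by
    rw [hker, (Λ.quotKerEquivOfSurjective hsurj).finrank_eq, Module.finrank_fintype_fun_eq_card,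
      Fintype.card_coe, card_rw']
  exact hfr

end Pool.Agent.TH471.M5
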