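import Mathlib

/-!
Local algebra for the separation of jets: an element of a smooth local situation all of whose
derivatives of order less than `s` vanish at the point lies in the `s`-th power of the maximal
ideal.
-/

namespace Pool.Agent.TH471.M5

section Ideals

variable {B : Type*} [CommRing B]

theorem pow_le_pow_sup (m I : Ideal B) (hI : I ≤ m) (h : m ≤ I ⊔ m ^ 2) (s : ℕ) :
    m ^ s ≤ I ^ s ⊔ m ^ (s + 1) := by
  induction s with
  | zero => simp
  | succ s ih =>
    calc m ^ (s + 1) = m * m ^ s := pow_succ' m s
      _ ≤ (I ⊔ m ^ 2) * (I ^ s ⊔ m ^ (s + 1)) := Ideal.mul_mono h ih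
      _ ≤ I ^ (s + 1) ⊔ m ^ (s + 1 + 1) := by
        rw [Ideal.sup_mul, Ideal.mul_sup, Ideal.mul_sup]
        refine sup_le (sup_le ?_ ?_) (sup_le ?_ ?_)
        · rw [← pow_succ']
          exact le_sup_left
        · refine le_trans ?_ le_sup_right
          rw [pow_succ' m (s + 1)]
          exact Ideal.mul_mono hI le_rfl
        · refine le_trans ?_ le_sup_right
          calc m ^ 2 * I ^ s ≤ m ^ 2 * m ^ s := Ideal.mul_mono le_rfl (Ideal.pow_right_mono hI s)
            _ = m ^ (s + 1 + 1) := by rw [← pow_add]; congr 1; omega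
        · refine le_trans ?_ le_sup_right
          rw [← pow_add]
          exact Ideal.pow_le_pow_right (by omega)

theorem exists_coeffs (u v : B) (s : ℕ) (f : B) (hf : f ∈ (Ideal.span {u, v} : Ideal B) ^ s) :
    ∃ b : ℕ → B, f = ∑ i ∈ Finset.range (s + 1), b i * (u ^ i * v ^ (s - i)) := by
  induction s generalizing f with
  | zero => exact ⟨fun _ => f, by simp⟩
  | succ s ih =>
    rw [pow_succ'] at hf
    induction hf using Submodule.mul_induction_on' with
    | mem_mul_mem a ha b hb =>
      obtain ⟨c, d, rfl⟩ := Ideal.mem_span_pair.1 ha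
      obtain ⟨e, he⟩ := ih b hb
      refine ⟨fun i => (if i = 0 then 0 else c * e (i - 1)) + (if i = s + 1 then 0 else d * e i),
        ?_⟩
      simp only [add_mul, Finset.sum_add_distrib]
      rw [Finset.sum_range_succ' _ (s + 1),
        Finset.sum_range_succ (fun i => (if i = s + 1 then 0 else d * e i) *
          (u ^ i * v ^ (s + 1 - i))) (s + 1)]
      simp only [Nat.add_eq_zero_iff, one_ne_zero, and_false, if_false, if_true, zero_mul,
        add_zero, Nat.add_sub_cancel]
      rw [he, Finset.mul_sum, Finset.mul_sum]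
      congr 1
      · refine Finset.sum_congr rfl fun i hi => ?_
        have : s + 1 - (i + 1) = s - i := by omega
        rw [this, pow_succ]
        ring
      · refine Finset.sum_congr rfl fun i hi => ?_
        have hi' := Finset.mem_range.1 hi
        have h1 : s + 1 - i = (s - i) + 1 := by omega
        rw [if_neg (by omega), h1, pow_succ v]
        ring
    | add a _ b _ ha hb =>
      obtain ⟨e1, h1⟩ := ha
      obtain ⟨e2, h2⟩ := hb
      refine ⟨fun i => e1 i + e2 i, ?_⟩
      simp only [add_mul, Finset.sum_add_distrib]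
      rw [← h1, ← h2]

theorem der_mem_pow {A : Type*} [CommRing A] [Algebra A B] (D : Derivation A B B) (m : Ideal B)
    (k : ℕ) (f : B) (hf : f ∈ m ^ (k + 1)) : D f ∈ m ^ k := by
  induction k generalizing f with
  | zero => simp
  | succ k ih =>
    rw [pow_succ'] at hf
    induction hf using Submodule.mul_induction_on' with
    | mem_mul_mem a ha b hb =>
      rw [D.leibniz, smul_eq_mul, smul_eq_mul]
      refine Ideal.add_mem _ ?_ ?_
      · rw [pow_succ']
        exact Ideal.mul_mem_mul ha (ih b hb)
      · exact Ideal.mul_mem_right _ _ hb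
    | add a _ b _ ha hb =>
      rw [map_add]
      exact Ideal.add_mem _ ha hb

theorem iter_der_mem_pow {A : Type*} [CommRing A] [Algebra A B] (D : Derivation A B B)
    (m : Ideal B) (j k : ℕ) (f : B) (hf : f ∈ m ^ (k + j)) : D^[j] f ∈ m ^ k := by
  induction j generalizing f with
  | zero => simpa using hf
  | succ j ih =>
    rw [Function.iterate_succ_apply]
    refine ih _ (der_mem_pow D m _ f ?_)
    rw [add_assoc]
    exact hf

end Ideals

section Iter

variable {B : Type*} [CommRing B] [Algebra ℂ B]

theorem iter_add (D : Derivation ℂ B B) (j : ℕ) (f g : B) :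
    D^[j] (f + g) = D^[j] f + D^[j] g := by
  induction j generalizing f g with
  | zero => rfl
  | succ j ih => rw [Function.iterate_succ_apply, map_add, ih]; rfl

theorem iter_zero (D : Derivation ℂ B B) (j : ℕ) : D^[j] (0 : B) = 0 := by
  induction j with
  | zero => rfl
  | succ j ih => rw [Function.iterate_succ_apply, map_zero, ih]

theorem iter_sum {ι : Type*} (D : Derivation ℂ B B) (j : ℕ) (t : Finset ι) (f : ι → B) :
    D^[j] (∑ i ∈ t, f i) = ∑ i ∈ t, D^[j] (f i) := by
  classical
  induction t using Finset.induction_on with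
  | empty => simp [iter_zero]
  | insert a t ha ih => rw [Finset.sum_insert ha, Finset.sum_insert ha, iter_add, ih]

/-- `D` kills `c`, `D u = 1`: then `D^j (c * u^i) = (i)_j * c * u^(i-j)`. -/
theorem iter_mul_pow (D : Derivation ℂ B B) (c u : B) (hc : D c = 0) (hu : D u = 1) (j i : ℕ) :
    D^[j] (c * u ^ i) = (i.descFactorial j : B) * (c * u ^ (i - j)) := by
  induction j generalizing i with
  | zero => simp
  | succ j ih =>
    rw [Function.iterate_succ_apply']
    rw [ih i, D.leibniz, D.leibniz, D.leibniz_pow, hc, hu]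
    simp only [smul_eq_mul, nsmul_eq_mul, mul_zero, add_zero, mul_one, Derivation.map_natCast]
    rw [Nat.descFactorial_succ, Nat.cast_mul]
    have h2 : i - (j + 1) = i - j - 1 := by omega
    rw [h2]
    ring

theorem iter_zero_of_ker (D : Derivation ℂ B B) (c : B) (hc : D c = 0) (j : ℕ) :
    D^[j + 1] c = 0 := by
  rw [Function.iterate_succ_apply, hc, iter_zero]

end Iter

section Local

variable {B : Type*} [CommRing B] [Algebra ℂ B]

/-- **Jets criterion.** -/
theorem mem_pow_of_derivatives (φ : B →ₐ[ℂ] ℂ) (D1 D2 : Derivation ℂ B B) (x y : B)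
    (h11 : D1 x = 1) (h12 : D1 y = 0) (h21 : D2 x = 0) (h22 : D2 y = 1)
    (hm : RingHom.ker φ ≤ Ideal.span {x - algebraMap ℂ B (φ x), y - algebraMap ℂ B (φ y)} ⊔
      (RingHom.ker φ) ^ 2)
    (s : ℕ) (f : B) (hf : ∀ α β, α + β < s → φ (D1^[α] (D2^[β] f)) = 0) :
    f ∈ (RingHom.ker φ) ^ s := by
  set u := x - algebraMap ℂ B (φ x) with hu
  set v := y - algebraMap ℂ B (φ y) with hv
  set m := RingHom.ker φ with hmdef
  have hum : u ∈ m := by simp [hmdef, hu, RingHom.mem_ker]
  have hvm : v ∈ m := by simp [hmdef, hv, RingHom.mem_ker]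
  have hIm : Ideal.span {u, v} ≤ m := by
    rw [Ideal.span_le]
    rintro z (rfl | rfl)
    · exact hum
    · exact hvm
  have h1u : D1 u = 1 := by rw [hu, map_sub, h11, Derivation.map_algebraMap, sub_zero]
  have h1v : D1 v = 0 := by rw [hv, map_sub, h12, Derivation.map_algebraMap, sub_zero]
  have h2u : D2 u = 0 := by rw [hu, map_sub, h21, Derivation.map_algebraMap, sub_zero]
  have h2v : D2 v = 1 := by rw [hv, map_sub, h22, Derivation.map_algebraMap, sub_zero]
  induction s with
  | zero => simp
  | succ s ih =>
    have h1 := ih fun α β h => hf α β (by omega)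
    obtain ⟨g, hg, r, hr, hgr⟩ := Submodule.mem_sup.1 (pow_le_pow_sup m _ hIm hm s h1)
    obtain ⟨b, hb⟩ := exists_coeffs u v s g hg
    -- replace the coefficients by constants
    have hb' : ∀ i, b i - algebraMap ℂ B (φ (b i)) ∈ m := fun i => by
      simp [hmdef, RingHom.mem_ker]
    have huv : ∀ i ∈ Finset.range (s + 1), u ^ i * v ^ (s - i) ∈ m ^ s := by
      intro i hi
      have hi' := Finset.mem_range.1 hi
      have h2 := Ideal.mul_mem_mul (Ideal.pow_mem_pow hum i) (Ideal.pow_mem_pow hvm (s - i))
      rwa [← pow_add, Nat.add_sub_cancel' (by omega)] at h2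
    let r' : B := r + ∑ i ∈ Finset.range (s + 1), (b i - algebraMap ℂ B (φ (b i))) *
      (u ^ i * v ^ (s - i))
    have hr' : r' ∈ m ^ (s + 1) := by
      refine Ideal.add_mem _ hr (Ideal.sum_mem _ fun i hi => ?_)
      rw [pow_succ']
      exact Ideal.mul_mem_mul (hb' i) (huv i hi)
    have hfr : f = (∑ i ∈ Finset.range (s + 1), algebraMap ℂ B (φ (b i)) *
        (u ^ i * v ^ (s - i))) + r' := by
      rw [← hgr, hb]
      simp only [r', sub_mul, Finset.sum_sub_distrib]
      ring
    have hcoef : ∀ i ∈ Finset.range (s + 1), φ (b i) = 0 := by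
      intro α hα
      have hα' := Finset.mem_range.1 hα
      have h2 := hf α (s - α) (by omega)
      have h3 : φ (D1^[α] (D2^[s - α] r')) = 0 := by
        have h4 : D1^[α] (D2^[s - α] r') ∈ m ^ 1 := by
          refine iter_der_mem_pow D1 m α 1 _ (iter_der_mem_pow D2 m (s - α) (1 + α) _ ?_)
          have : 1 + α + (s - α) = s + 1 := by omega
          rw [this]
          exact hr'
        rw [pow_one] at h4
        exact h4
      rw [hfr, iter_add, iter_add, map_add, h3, add_zero, iter_sum, iter_sum, map_sum] at h2
      have h5 : ∀ i ∈ Finset.range (s + 1), φ (D1^[α] (D2^[s - α]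
          (algebraMap ℂ B (φ (b i)) * (u ^ i * v ^ (s - i))))) =
          if i = α then φ (b α) * ((α.factorial : ℂ) * ((s - α).factorial : ℂ)) else 0 := by
        intro i hi
        have hi' := Finset.mem_range.1 hi
        have e1 : algebraMap ℂ B (φ (b i)) * (u ^ i * v ^ (s - i)) =
            (algebraMap ℂ B (φ (b i)) * u ^ i) * v ^ (s - i) := by ring
        have e2 : D2 (algebraMap ℂ B (φ (b i)) * u ^ i) = 0 := by
          rw [D2.leibniz, D2.leibniz_pow, h2u, Derivation.map_algebraMap]
          simp
        rw [e1, iter_mul_pow D2 _ v e2 h2v]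
        have e3 : (((s - i).descFactorial (s - α) : ℕ) : B) *
            (algebraMap ℂ B (φ (b i)) * u ^ i * v ^ (s - i - (s - α))) =
            ((((s - i).descFactorial (s - α) : ℕ) : B) * algebraMap ℂ B (φ (b i)) *
              v ^ (s - i - (s - α))) * u ^ i := by ring
        have e4 : D1 ((((s - i).descFactorial (s - α) : ℕ) : B) * algebraMap ℂ B (φ (b i)) *
              v ^ (s - i - (s - α))) = 0 := by
          rw [D1.leibniz, D1.leibniz, D1.leibniz_pow, h1v, Derivation.map_algebraMap,
            Derivation.map_natCast]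
          simp
        rw [e3, iter_mul_pow D1 _ u e4 h1u]
        simp only [map_mul, map_pow, map_natCast, AlgHom.commutes]
        have hφu : φ u = 0 := hum
        have hφv : φ v = 0 := hvm
        rw [hφu, hφv]
        by_cases hiα : i = α
        · subst hiα
          rw [if_pos rfl, Nat.sub_self, Nat.sub_self, Nat.descFactorial_self,
            Nat.descFactorial_self]
          simp
          ring
        · rw [if_neg hiα]
          rcases lt_or_gt_of_ne hiα with h | h
          · rw [Nat.descFactorial_of_lt h]
            simp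
          · rw [Nat.descFactorial_of_lt (n := s - i) (k := s - α) (by omega)]
            simp
      rw [Finset.sum_congr rfl h5, Finset.sum_ite_eq' (Finset.range (s + 1)) α, if_pos hα] at h2
      have h6 : ((α.factorial : ℂ) * ((s - α).factorial : ℂ)) ≠ 0 :=
        mul_ne_zero (Nat.cast_ne_zero.2 (Nat.factorial_ne_zero _))
          (Nat.cast_ne_zero.2 (Nat.factorial_ne_zero _))
      exact (mul_eq_zero.1 h2).resolve_right h6
    rw [hfr, Finset.sum_eq_zero, zero_add]
    · exact hr'
    · intro i hi
      rw [hcoef i hi, map_zero, zero_mul]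

end Local

end Pool.Agent.TH471.M5
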