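import Pool.Agent.W607.Defs
import Pool.Agent.TH471.M5.Local

/-!
A chart of an affine variety on which the jets criterion holds.
-/

namespace Pool.Agent.TH471.M5

open MvPolynomial Pool.Agent.W607

theorem mem_mw {σ : Type*} (w : σ → ℂ) (f : MvPolynomial σ ℂ) : f ∈ mw w ↔ eval w f = 0 := by
  constructor
  · intro h
    have h1 : mw w ≤ RingHom.ker (eval w : MvPolynomial σ ℂ →+* ℂ) := by
      unfold mw
      rw [Ideal.span_le]
      rintro _ ⟨i, rfl⟩
      simp [RingHom.mem_ker]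
    exact h1 h
  · intro h
    have h1 : ∀ g : MvPolynomial σ ℂ, g - C (eval w g) ∈ mw w := by
      intro g
      induction g using MvPolynomial.induction_on with
      | C a => simp
      | add p q hp hq =>
        have := Ideal.add_mem _ hp hq
        rw [map_add, C_add]
        convert this using 1
        ring
      | mul_X p i hp =>
        have h2 : X i - C (w i) ∈ mw w := Ideal.subset_span ⟨i, rfl⟩
        rw [map_mul, eval_X, C_mul]
        have := Ideal.add_mem _ (Ideal.mul_mem_left _ (C (w i)) hp) (Ideal.mul_mem_left _ p h2)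
        convert this using 1
        ring
    have := h1 f
    rwa [h, C_0, sub_zero] at this

/-- the ring of fractions `π a / (π h) ^ k`, as a subalgebra -/
def Bh {σ FF : Type*} [Field FF] [Algebra ℂ FF] (π : MvPolynomial σ ℂ →ₐ[ℂ] FF)
    (h : MvPolynomial σ ℂ) : Subalgebra ℂ FF where
  carrier := {b | ∃ (k : ℕ) (a : MvPolynomial σ ℂ), b * π h ^ k = π a}
  mul_mem' := by
    rintro b c ⟨k, a, hb⟩ ⟨l, d, hc⟩
    refine ⟨k + l, a * d, ?_⟩
    rw [map_mul, ← hb, ← hc, pow_add]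
    ring
  add_mem' := by
    rintro b c ⟨k, a, hb⟩ ⟨l, d, hc⟩
    refine ⟨k + l, a * h ^ l + d * h ^ k, ?_⟩
    rw [map_add, map_mul, map_mul, ← hb, ← hc, map_pow, map_pow, pow_add]
    ring
  algebraMap_mem' := by
    intro r
    exact ⟨0, C r, by rw [pow_zero, mul_one, ← MvPolynomial.algebraMap_eq, AlgHom.commutes]⟩

variable {σ FF : Type*} [Field FF] [Algebra ℂ FF] {π : MvPolynomial σ ℂ →ₐ[ℂ] FF}
  {h : MvPolynomial σ ℂ}

theorem mem_Bh (b : FF) : b ∈ Bh π h ↔ ∃ (k : ℕ) (a : MvPolynomial σ ℂ), b * π h ^ k = π a :=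
  Iff.rfl

theorem pi_mem_Bh (a : MvPolynomial σ ℂ) : π a ∈ Bh π h := ⟨0, a, by simp⟩

theorem inv_mem_Bh (hh : π h ≠ 0) : (π h)⁻¹ ∈ Bh π h := ⟨1, 1, by simp [hh]⟩

theorem mul_unit_mem_Bh (hh : π h ≠ 0) (b : FF) (k : ℕ) (hb : b * π h ^ k ∈ Bh π h) :
    b ∈ Bh π h := by
  have h1 := Subalgebra.mul_mem _ hb (Subalgebra.pow_mem _ (inv_mem_Bh hh) k)
  rwa [inv_pow, mul_inv_cancel_right₀ (pow_ne_zero _ hh)] at h1

theorem coe_mul_Bh (b c : Bh π h) : ((b * c : Bh π h) : FF) = b * c := rfl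

theorem coe_add_Bh (b c : Bh π h) : ((b + c : Bh π h) : FF) = b + c := rfl

theorem exists_hom (w : σ → ℂ) (hw : ∀ f, π f = 0 → eval w f = 0)
    (hhw : eval w h ≠ 0) :
    ∃ φ : Bh π h →ₐ[ℂ] ℂ, ∀ (b : Bh π h) (k : ℕ) (a : MvPolynomial σ ℂ),
      (b : FF) * π h ^ k = π a → φ b * (eval w h) ^ k = eval w a := by
  have hex : ∀ b : Bh π h, ∃ (k : ℕ) (a : MvPolynomial σ ℂ), (b : FF) * π h ^ k = π a :=
    fun b => b.2
  choose kk aa hka using hex
  obtain ⟨φ0, hφ00⟩ : ∃ φ0 : Bh π h → ℂ, ∀ b, φ0 b = eval w (aa b) / (eval w h) ^ (kk b) :=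
    ⟨_, fun _ => rfl⟩
  have hφ0 : ∀ (b : Bh π h) (k : ℕ) (a : MvPolynomial σ ℂ),
      (b : FF) * π h ^ k = π a → φ0 b * (eval w h) ^ k = eval w a := by
    intro b k a hb
    have h1 : π (aa b * h ^ k - a * h ^ (kk b)) = 0 := by
      rw [map_sub, map_mul, map_mul, map_pow, map_pow, ← hb, ← hka]
      ring
    have h2 := hw _ h1
    rw [map_sub, map_mul, map_mul, map_pow, map_pow, sub_eq_zero] at h2
    rw [hφ00, div_mul_eq_mul_div, h2, mul_div_assoc, div_self (pow_ne_zero _ hhw), mul_one]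
  have huniq : ∀ (b : Bh π h) (k : ℕ) (a : MvPolynomial σ ℂ) (z : ℂ),
      (b : FF) * π h ^ k = π a → z * (eval w h) ^ k = eval w a → φ0 b = z := by
    intro b k a z h1 h2
    rw [← hφ0 b k a h1] at h2
    exact (mul_right_cancel₀ (pow_ne_zero _ hhw) h2).symm
  have hone : φ0 1 = 1 := huniq 1 0 1 1 (by simp) (by simp)
  have hzero : φ0 0 = 0 := huniq 0 0 0 0 (by simp) (by simp)
  have hmul : ∀ b c, φ0 (b * c) = φ0 b * φ0 c := by
    intro b c
    have h1 := hφ0 b _ _ (hka b)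
    have h2 := hφ0 c _ _ (hka c)
    refine huniq (b * c) (kk b + kk c) (aa b * aa c) _ ?_ ?_
    · rw [map_mul, ← hka, ← hka, pow_add, coe_mul_Bh]
      ring
    · rw [map_mul, ← h1, ← h2, pow_add]
      ring
  have hadd : ∀ b c, φ0 (b + c) = φ0 b + φ0 c := by
    intro b c
    have h1 := hφ0 b _ _ (hka b)
    have h2 := hφ0 c _ _ (hka c)
    refine huniq (b + c) (kk b + kk c) (aa b * h ^ (kk c) + aa c * h ^ (kk b)) _ ?_ ?_
    · rw [map_add, map_mul, map_mul, ← hka, ← hka, map_pow, map_pow, pow_add, coe_add_Bh]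
      ring
    · rw [map_add, map_mul, map_mul, ← h1, ← h2, map_pow, map_pow, pow_add]
      ring
  have hcomm : ∀ r : ℂ, φ0 (algebraMap ℂ (Bh π h) r) = r := by
    intro r
    refine huniq _ 0 (C r) _ ?_ ?_
    · rw [pow_zero, mul_one, ← MvPolynomial.algebraMap_eq, AlgHom.commutes]
      rfl
    · simp
  let ψ : Bh π h →+* ℂ :=
    { toFun := φ0, map_one' := hone, map_mul' := hmul, map_zero' := hzero, map_add' := hadd }
  exact ⟨{ ψ with commutes' := hcomm }, hφ0⟩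

/-- if `f h^k` is in `ker π ⊔ (mw w)^s` and `h(w) ≠ 0` then so is `f`. -/
theorem cancel_h (w : σ → ℂ) (hhw : eval w h ≠ 0) (s k : ℕ) (f a : MvPolynomial σ ℂ)
    (ha : a ∈ (mw w) ^ s) (hfa : π f * π h ^ k = π a) :
    f ∈ RingHom.ker π ⊔ (mw w) ^ s := by
  have h1 : f * h ^ k ∈ RingHom.ker π ⊔ (mw w) ^ s := by
    have h2 : f * h ^ k = (f * h ^ k - a) + a := by ring
    rw [h2]
    refine Submodule.add_mem_sup ?_ ha
    rw [RingHom.mem_ker, map_sub, map_mul, map_pow, sub_eq_zero]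
    exact hfa
  have h3 : Ideal.span {h ^ k} ⊔ (mw w) ^ s = ⊤ := by
    rw [← Ideal.span_singleton_pow]
    apply Ideal.pow_sup_pow_eq_top
    rw [Ideal.eq_top_iff_one]
    have h4 : (1 : MvPolynomial σ ℂ) = C (eval w h)⁻¹ * h + (1 - C (eval w h)⁻¹ * h) := by ring
    rw [h4]
    refine Submodule.add_mem_sup (Ideal.mul_mem_left _ _ (Ideal.mem_span_singleton_self h)) ?_
    rw [mem_mw]
    simp [hhw]
  obtain ⟨p, hp, r, hr, hpr⟩ := Submodule.mem_sup.1 ((Ideal.eq_top_iff_one _).1 h3)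
  obtain ⟨c, rfl⟩ := Ideal.mem_span_singleton'.1 hp
  have h5 : f = c * (f * h ^ k) + f * r := by
    calc f = f * (c * h ^ k + r) := by rw [hpr, mul_one]
      _ = _ := by ring
  rw [h5]
  exact Ideal.add_mem _ (Ideal.mul_mem_left _ _ h1)
    (Ideal.mem_sup_right (Ideal.mul_mem_left _ _ hr))

theorem ker_pow_lift (w : σ → ℂ)
    (φ : Bh π h →ₐ[ℂ] ℂ) (hφ : ∀ (b : Bh π h) (k : ℕ) (a : MvPolynomial σ ℂ),
      (b : FF) * π h ^ k = π a → φ b * (eval w h) ^ k = eval w a)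
    (s : ℕ) (b : Bh π h) (hb : b ∈ (RingHom.ker φ) ^ s) :
    ∃ (k : ℕ) (a : MvPolynomial σ ℂ), (b : FF) * π h ^ k = π a ∧ a ∈ (mw w) ^ s := by
  induction s generalizing b with
  | zero =>
    obtain ⟨k, a, h1⟩ := b.2
    exact ⟨k, a, h1, by simp⟩
  | succ s ih =>
    rw [pow_succ'] at hb
    induction hb using Submodule.mul_induction_on' with
    | mem_mul_mem b hb c hc =>
      obtain ⟨k, a, h1⟩ := b.2
      obtain ⟨l, d, h2, h3⟩ := ih c hc
      refine ⟨k + l, a * d, ?_, ?_⟩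
      · rw [map_mul, ← h1, ← h2, pow_add]
        push_cast
        ring
      · rw [pow_succ']
        refine Ideal.mul_mem_mul ?_ h3
        rw [mem_mw, ← hφ b k a h1]
        rw [RingHom.mem_ker] at hb
        have hb' : φ b = 0 := hb
        rw [hb', zero_mul]
    | add b _ c _ hb hc =>
      obtain ⟨k, a, h1, h2⟩ := hb
      obtain ⟨l, d, h3, h4⟩ := hc
      refine ⟨k + l, a * h ^ l + d * h ^ k, ?_, ?_⟩
      · rw [map_add, map_mul, map_mul, ← h1, ← h3, map_pow, map_pow, pow_add]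
        push_cast
        ring
      · exact Ideal.add_mem _ (Ideal.mul_mem_right _ _ h2) (Ideal.mul_mem_right _ _ h4)

theorem exists_h (hfrac : ∀ z : FF, ∃ f g, π g ≠ 0 ∧ z * π g = π f) (S : Set FF)
    (hS : S.Finite) : ∃ h : MvPolynomial σ ℂ, π h ≠ 0 ∧ S ⊆ Bh π h := by
  classical
  induction S, hS using Set.Finite.induction_on with
  | empty => exact ⟨1, by simp, by simp⟩
  | @insert z S _ _ ih =>
    obtain ⟨h, hh, hS⟩ := ih
    obtain ⟨f, g, hg, hz⟩ := hfrac z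
    refine ⟨h * g, by rw [map_mul]; exact mul_ne_zero hh hg, ?_⟩
    rintro b (rfl | hb)
    · refine ⟨1, h * f, ?_⟩
      rw [map_mul, pow_one, map_mul, ← hz]
      ring
    · obtain ⟨k, a, h1⟩ := hS hb
      refine ⟨k, a * g ^ k, ?_⟩
      rw [map_mul, map_mul, map_pow, mul_pow, ← h1]
      ring

theorem ev_hom {R R' : Type*} [CommRing R] [CommRing R'] [Algebra ℂ R] [Algebra ℂ R']
    (g : R →ₐ[ℂ] R') (x y z : R) (G : BB ℂ) :
    g (ev (K := ℂ) x y z G) = ev (K := ℂ) (g x) (g y) (g z) G := by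
  have hh : ((g : R →+* R').comp ((aeval ![x, y] : AA ℂ →ₐ[ℂ] R) : AA ℂ →+* R)) =
      ((aeval ![g x, g y] : AA ℂ →ₐ[ℂ] R') : AA ℂ →+* R') := by
    apply MvPolynomial.ringHom_ext
    · intro a; simp
    · intro i; fin_cases i <;> simp
  unfold ev
  simp only [Polynomial.coe_eval₂RingHom]
  have := Polynomial.hom_eval₂ G ((aeval ![x, y] : AA ℂ →ₐ[ℂ] R) : AA ℂ →+* R)
    (g : R →+* R') z
  rw [hh] at this
  simpa using this

/-- tangency: if `z` satisfies a separable equation over `ℂ[x,y]` at the point then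
`z - z(w)` is in the ideal of `x - x(w)`, `y - y(w)` modulo the square. -/
theorem tangent {B : Type*} [CommRing B] [Algebra ℂ B] (φ : B →ₐ[ℂ] ℂ) (x y z : B) (Q : BB ℂ)
    (h0 : ev (K := ℂ) x y z Q = 0) (h1 : φ (ev (K := ℂ) x y z Q.derivative) ≠ 0) :
    z - algebraMap ℂ B (φ z) ∈
      Ideal.span {x - algebraMap ℂ B (φ x), y - algebraMap ℂ B (φ y)} ⊔ (RingHom.ker φ) ^ 2 := by
  set J := Ideal.span {x - algebraMap ℂ B (φ x), y - algebraMap ℂ B (φ y)} ⊔
    (RingHom.ker φ) ^ 2 with hJ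
  let q : B →ₐ[ℂ] B ⧸ J := Ideal.Quotient.mkₐ ℂ J
  have hqx : q x = algebraMap ℂ _ (φ x) := by
    have h2 : q (x - algebraMap ℂ B (φ x)) = 0 :=
      Ideal.Quotient.eq_zero_iff_mem.2 (Ideal.mem_sup_left (Ideal.subset_span (by simp)))
    rwa [map_sub, AlgHom.commutes, sub_eq_zero] at h2
  have hqy : q y = algebraMap ℂ _ (φ y) := by
    have h2 : q (y - algebraMap ℂ B (φ y)) = 0 :=
      Ideal.Quotient.eq_zero_iff_mem.2 (Ideal.mem_sup_left (Ideal.subset_span (by simp)))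
    rwa [map_sub, AlgHom.commutes, sub_eq_zero] at h2
  let Q0 : Polynomial ℂ := Q.map ((aeval ![φ x, φ y] : AA ℂ →ₐ[ℂ] ℂ) : AA ℂ →+* ℂ)
  -- the values at the point
  have hv0 : Q0.eval (φ z) = 0 := by
    have h2 := congrArg φ h0
    rw [map_zero, ev_hom] at h2
    rw [Polynomial.eval_map]
    exact h2
  have hv1 : Q0.derivative.eval (φ z) ≠ 0 := by
    intro h2
    apply h1
    rw [ev_hom]
    have h4 : Q0.derivative = Q.derivative.map
        ((aeval ![φ x, φ y] : AA ℂ →ₐ[ℂ] ℂ) : AA ℂ →+* ℂ) := Polynomial.derivative_map _ _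
    rw [h4, Polynomial.eval_map] at h2
    exact h2
  -- in the quotient
  obtain ⟨e, he⟩ : ∃ e : B ⧸ J, e = q (z - algebraMap ℂ B (φ z)) := ⟨_, rfl⟩
  have he2 : e ^ 2 = 0 := by
    rw [he, ← map_pow]
    refine Ideal.Quotient.eq_zero_iff_mem.2 (Ideal.mem_sup_right (Ideal.pow_mem_pow ?_ 2))
    simp [RingHom.mem_ker]
  have hqz : q z = algebraMap ℂ _ (φ z) + e := by
    rw [he, map_sub, AlgHom.commutes]
    ring
  have h5 : Polynomial.aeval (q z) Q0 = 0 := by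
    have h6 := congrArg q h0
    rw [map_zero] at h6
    have hh : ((q : B →+* B ⧸ J).comp ((aeval ![x, y] : AA ℂ →ₐ[ℂ] B) : AA ℂ →+* B)) =
        (algebraMap ℂ (B ⧸ J)).comp ((aeval ![φ x, φ y] : AA ℂ →ₐ[ℂ] ℂ) : AA ℂ →+* ℂ) := by
      apply MvPolynomial.ringHom_ext
      · intro a; simp
      · intro i; fin_cases i
        · simp [hqx]
        · simp [hqy]
    have h7 := Polynomial.hom_eval₂ Q ((aeval ![x, y] : AA ℂ →ₐ[ℂ] B) : AA ℂ →+* B)
      (q : B →+* B ⧸ J) z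
    rw [hh] at h7
    rw [Polynomial.aeval_def, Polynomial.eval₂_map]
    refine h7.symm.trans ?_
    exact h6
  rw [hqz, Polynomial.aeval_add_of_sq_eq_zero _ _ _ he2] at h5
  have h8 : Polynomial.aeval (algebraMap ℂ (B ⧸ J) (φ z)) Q0 = 0 := by
    rw [Polynomial.aeval_algebraMap_apply, Polynomial.coe_aeval_eq_eval, hv0, map_zero]
  have h9 : Polynomial.aeval (algebraMap ℂ (B ⧸ J) (φ z)) Q0.derivative =
      algebraMap ℂ (B ⧸ J) (Q0.derivative.eval (φ z)) := by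
    rw [Polynomial.aeval_algebraMap_apply, Polynomial.coe_aeval_eq_eval]
  rw [h8, h9, zero_add] at h5
  have h10 : e = 0 := by
    have h11 : algebraMap ℂ (B ⧸ J) (Q0.derivative.eval (φ z))⁻¹ *
        (algebraMap ℂ (B ⧸ J) (Q0.derivative.eval (φ z)) * e) = 0 := by rw [h5, mul_zero]
    rw [← mul_assoc, ← map_mul, inv_mul_cancel₀ hv1, map_one, one_mul] at h11
    exact h11
  rw [he] at h10
  exact Ideal.Quotient.eq_zero_iff_mem.1 h10

end Pool.Agent.TH471.M5
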