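import Pool.Agent.TH471.M5.Chart

/-!
A chart of an affine variety on which the jets criterion holds.
-/

namespace Pool.Agent.TH471.M5

open MvPolynomial Pool.Agent.W607

variable {σ FF : Type*} [Field FF] [Algebra ℂ FF] {π : MvPolynomial σ ℂ →ₐ[ℂ] FF}
  {h : MvPolynomial σ ℂ}

theorem der_mem_Bh (hh : π h ≠ 0) (D : Derivation ℂ FF FF) (hD : ∀ i, D (π (X i)) ∈ Bh π h)
    (b : FF) (hb : b ∈ Bh π h) : D b ∈ Bh π h := by
  have h1 : ∀ a : MvPolynomial σ ℂ, D (π a) ∈ Bh π h := by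
    intro a
    induction a using MvPolynomial.induction_on with
    | C a =>
      rw [← MvPolynomial.algebraMap_eq, AlgHom.commutes, Derivation.map_algebraMap]
      exact Subalgebra.zero_mem _
    | add p q hp hq =>
      rw [map_add, map_add]
      exact Subalgebra.add_mem _ hp hq
    | mul_X p i hp =>
      rw [map_mul, D.leibniz, smul_eq_mul, smul_eq_mul]
      exact Subalgebra.add_mem _ (Subalgebra.mul_mem _ (pi_mem_Bh _) (hD i))
        (Subalgebra.mul_mem _ (pi_mem_Bh _) hp)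
  obtain ⟨k, a, hk⟩ := hb
  have h2 := h1 a
  have h3 : D (π h ^ k) ∈ Bh π h := by
    rw [← map_pow]
    exact h1 _
  rw [← hk, D.leibniz, smul_eq_mul, smul_eq_mul] at h2
  have h4 : b * D (π h ^ k) ∈ Bh π h := Subalgebra.mul_mem _ ⟨k, a, hk⟩ h3
  have h5 := Subalgebra.sub_mem _ h2 h4
  rw [add_sub_cancel_left, mul_comm] at h5
  exact mul_unit_mem_Bh hh _ k h5

/-- restriction of a derivation to a stable subalgebra -/
def resD (D : Derivation ℂ FF FF) (A : Subalgebra ℂ FF) (hD : ∀ b ∈ A, D b ∈ A) :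
    Derivation ℂ A A where
  toFun b := ⟨D b, hD b b.2⟩
  map_add' b c := Subtype.ext (map_add D _ _)
  map_smul' r b := Subtype.ext (D.map_smul r (b : FF))
  map_one_eq_zero' := Subtype.ext (D.map_one_eq_zero)
  leibniz' b c := Subtype.ext (D.leibniz (b : FF) c)

theorem coe_resD_iter (D : Derivation ℂ FF FF) (A : Subalgebra ℂ FF) (hD : ∀ b ∈ A, D b ∈ A)
    (j : ℕ) (b : A) : (((resD D A hD)^[j] b : A) : FF) = D^[j] b := by
  induction j generalizing b with
  | zero => rfl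
  | succ j ih =>
    rw [Function.iterate_succ_apply, Function.iterate_succ_apply, ih]
    rfl

/-- a separable equation -/
theorem exists_sep {x y : FF} (hxy : ∀ Q : AA ℂ, aeval ![x, y] Q = 0 → Q = 0) (z : FF)
    (hz : ∃ Q : BB ℂ, Q ≠ 0 ∧ ev (K := ℂ) x y z Q = 0) :
    ∃ Q : BB ℂ, ev (K := ℂ) x y z Q = 0 ∧ ev (K := ℂ) x y z Q.derivative ≠ 0 := by
  classical
  have hex : ∃ d : ℕ, ∃ Q : BB ℂ, Q.natDegree = d ∧ Q ≠ 0 ∧ ev (K := ℂ) x y z Q = 0 := by
    obtain ⟨Q, h1, h2⟩ := hz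
    exact ⟨_, Q, rfl, h1, h2⟩
  obtain ⟨Q, hQd, hQ0, hQ⟩ := Nat.find_spec hex
  refine ⟨Q, hQ, fun h1 => ?_⟩
  have hd : Q.natDegree ≠ 0 := by
    intro h2
    rw [Polynomial.eq_C_of_natDegree_eq_zero h2] at hQ hQ0
    apply hQ0
    have h3 : aeval ![x, y] (Q.coeff 0) = 0 := by
      unfold ev at hQ
      simpa using hQ
    rw [hxy _ h3, Polynomial.C_0]
  have h3 : Q.derivative ≠ 0 := by
    intro h4
    exact hd (Polynomial.derivative_eq_zero.1 h4)
  have h4 : Q.derivative.natDegree < Q.natDegree := Polynomial.natDegree_derivative_lt hd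
  rw [hQd] at h4
  exact Nat.find_min hex h4 ⟨_, rfl, h3, h1⟩

/-- **A chart on which the jets criterion holds.** -/
theorem exists_chart [Finite σ]
    (hfrac : ∀ z : FF, ∃ f g, π g ≠ 0 ∧ z * π g = π f)
    (x y : FF) (D1 D2 : Derivation ℂ FF FF)
    (h11 : D1 x = 1) (h12 : D1 y = 0) (h21 : D2 x = 0) (h22 : D2 y = 1)
    (halg : ∀ z : FF, ∃ Q : BB ℂ, Q ≠ 0 ∧ ev (K := ℂ) x y z Q = 0)
    (hxy : ∀ Q : AA ℂ, aeval ![x, y] Q = 0 → Q = 0) :
    ∃ h : MvPolynomial σ ℂ, π h ≠ 0 ∧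
      (∀ (α β : ℕ) (f : MvPolynomial σ ℂ), ∃ (k : ℕ) (a : MvPolynomial σ ℂ),
        D1^[α] (D2^[β] (π f)) * π h ^ k = π a) ∧
      ∀ w : σ → ℂ, (∀ f, π f = 0 → eval w f = 0) → eval w h ≠ 0 →
        ∀ (s : ℕ) (f : MvPolynomial σ ℂ),
        (∀ α β : ℕ, α + β < s → ∃ (k : ℕ) (a : MvPolynomial σ ℂ),
          D1^[α] (D2^[β] (π f)) * π h ^ k = π a ∧ eval w a = 0) →
        f ∈ RingHom.ker π ⊔ (mw w) ^ s := by
  classical
  have hQ : ∀ i : σ, ∃ Q : BB ℂ, ev (K := ℂ) x y (π (X i)) Q = 0 ∧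
      ev (K := ℂ) x y (π (X i)) Q.derivative ≠ 0 := fun i => exists_sep hxy _ (halg _)
  choose Q hQ0 hQ1 using hQ
  let S : Set FF := {x, y} ∪ ((Set.range fun i => D1 (π (X i))) ∪
    ((Set.range fun i => D2 (π (X i))) ∪
      Set.range fun i => (ev (K := ℂ) x y (π (X i)) (Q i).derivative)⁻¹))
  have hS : S.Finite := (Set.toFinite _).union ((Set.finite_range _).union
    ((Set.finite_range _).union (Set.finite_range _)))
  obtain ⟨h, hh, hSh⟩ := exists_h (π := π) hfrac S hS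
  have hx : x ∈ Bh π h := hSh (Or.inl (by simp))
  have hy : y ∈ Bh π h := hSh (Or.inl (by simp))
  have hD1 : ∀ b ∈ Bh π h, D1 b ∈ Bh π h :=
    der_mem_Bh hh D1 fun i => hSh (Or.inr (Or.inl ⟨i, rfl⟩))
  have hD2 : ∀ b ∈ Bh π h, D2 b ∈ Bh π h :=
    der_mem_Bh hh D2 fun i => hSh (Or.inr (Or.inr (Or.inl ⟨i, rfl⟩)))
  have hQi : ∀ i, (ev (K := ℂ) x y (π (X i)) (Q i).derivative)⁻¹ ∈ Bh π h :=
    fun i => hSh (Or.inr (Or.inr (Or.inr ⟨i, rfl⟩)))
  have hit : ∀ (α β : ℕ) (b : Bh π h), ((((resD D1 _ hD1)^[α] ((resD D2 _ hD2)^[β] b)) :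
      Bh π h) : FF) = D1^[α] (D2^[β] b) := by
    intro α β b
    rw [coe_resD_iter, coe_resD_iter]
  refine ⟨h, hh, ?_, ?_⟩
  · intro α β f
    have h1 := ((resD D1 _ hD1)^[α] ((resD D2 _ hD2)^[β] (⟨π f, pi_mem_Bh f⟩ : Bh π h))).2
    rw [hit] at h1
    exact h1
  · intro w hw hhw s f hf
    obtain ⟨φ, hφ⟩ := exists_hom (h := h) w hw hhw
    let zz : σ → Bh π h := fun i => ⟨π (X i), pi_mem_Bh _⟩
    let xx : Bh π h := ⟨x, hx⟩
    let yy : Bh π h := ⟨y, hy⟩
    have hφz : ∀ i, φ (zz i) = w i := by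
      intro i
      have := hφ (zz i) 0 (X i) (by simp [zz])
      simpa using this
    have hm1 : ∀ i, zz i - algebraMap ℂ _ (w i) ∈ Ideal.span
        {xx - algebraMap ℂ (Bh π h) (φ xx), yy - algebraMap ℂ (Bh π h) (φ yy)} ⊔
        (RingHom.ker φ) ^ 2 := by
      intro i
      rw [← hφz i]
      have hev : ∀ G : BB ℂ, ((ev (K := ℂ) xx yy (zz i) G : Bh π h) : FF) =
          ev (K := ℂ) x y (π (X i)) G := fun G => ev_hom (Bh π h).val xx yy (zz i) G
      refine tangent φ xx yy (zz i) (Q i) ?_ ?_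
      · apply Subtype.ext
        rw [hev, hQ0]
        rfl
      · intro h1
        have h2 : ev (K := ℂ) xx yy (zz i) (Q i).derivative * ⟨_, hQi i⟩ = (1 : Bh π h) := by
          apply Subtype.ext
          rw [coe_mul_Bh, hev]
          exact mul_inv_cancel₀ (hQ1 i)
        have h3 := congrArg φ h2
        rw [map_mul, h1, zero_mul, map_one] at h3
        exact zero_ne_one h3
    -- the kernel
    have hm : RingHom.ker φ ≤ Ideal.span
        {xx - algebraMap ℂ (Bh π h) (φ xx), yy - algebraMap ℂ (Bh π h) (φ yy)} ⊔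
        (RingHom.ker φ) ^ 2 := by
      intro b hb
      obtain ⟨k, a, hk⟩ := b.2
      have ha : a ∈ mw w := by
        rw [mem_mw, ← hφ b k a hk]
        have hb' : φ b = 0 := hb
        rw [hb', zero_mul]
      let ππ : MvPolynomial σ ℂ →ₐ[ℂ] Bh π h := π.codRestrict _ fun f => pi_mem_Bh f
      have h1 : ππ a ∈ Ideal.span
        {xx - algebraMap ℂ (Bh π h) (φ xx), yy - algebraMap ℂ (Bh π h) (φ yy)} ⊔
        (RingHom.ker φ) ^ 2 := by
        have h2 : mw w ≤ Ideal.comap ππ (Ideal.span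
          {xx - algebraMap ℂ (Bh π h) (φ xx), yy - algebraMap ℂ (Bh π h) (φ yy)} ⊔
          (RingHom.ker φ) ^ 2) := by
          unfold mw
          rw [Ideal.span_le]
          rintro _ ⟨i, rfl⟩
          rw [SetLike.mem_coe, Ideal.mem_comap, map_sub, ← MvPolynomial.algebraMap_eq,
            AlgHom.commutes]
          exact hm1 i
        exact h2 ha
      have h3 : b = ππ a * (⟨(π h)⁻¹, inv_mem_Bh hh⟩ : Bh π h) ^ k := by
        apply Subtype.ext
        rw [coe_mul_Bh]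
        show (b : FF) = π a * ((π h)⁻¹) ^ k
        rw [← hk, inv_pow, mul_inv_cancel_right₀ (pow_ne_zero _ hh)]
      rw [h3]
      exact Ideal.mul_mem_right _ _ h1
    -- the criterion
    have hf' : (⟨π f, pi_mem_Bh f⟩ : Bh π h) ∈ (RingHom.ker φ) ^ s := by
      refine mem_pow_of_derivatives φ (resD D1 _ hD1) (resD D2 _ hD2) xx yy
        (Subtype.ext h11) (Subtype.ext h12) (Subtype.ext h21) (Subtype.ext h22) hm s _ ?_
      intro α β hαβ
      obtain ⟨k, a, h1, h2⟩ := hf α β hαβ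
      have h3 := hφ ((resD D1 _ hD1)^[α] ((resD D2 _ hD2)^[β]
        (⟨π f, pi_mem_Bh f⟩ : Bh π h))) k a (by rw [hit]; exact h1)
      rw [h2] at h3
      exact (mul_eq_zero.1 h3).resolve_right (pow_ne_zero _ hhw)
    obtain ⟨k, a, h1, h2⟩ := ker_pow_lift w φ hφ s _ hf'
    exact cancel_h w hhw s k f a h2 h1

end Pool.Agent.TH471.M5
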